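import Mathlib
import Pool.Agent.Q180.WT.StmB
import Pool.Agent.Q60.D3.KZf
import Pool.Agent.Q225.D3.Kon
import Pool.Agent.Q280.D3.Wgt

/-!
# Project WT: jobs UZA, TRZ and KON (helper202)
-/

set_option linter.unusedSectionVars false
set_option linter.unusedVariables false

namespace Pool.Agent.Q202.WT

open Matrix Module Pool.Agent.H204R3.CM Pool.Agent.H204R3.SP Pool.Agent.W437.HC
  Pool.Agent.W437.HD Pool.Agent.W437.HP Pool.Agent.W437.HR Pool.Agent.W437.HQ
open Pool.Agent.Q60.D3 (AV IsHom cx mulF HasWeight conjF chi cxM ofZ Comm om om_add_left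
  om_add_right om_smul_left om_smul_right om_neg_left om_neg_right om_sum_left om_sum_right
  om_swap om_sp S_wgt hom_of_comm)
open Pool.Agent.Q180.WT
open Pool.Agent.Q225.D3 (cq cq_add cq_smul cq_single sum_det_diag cq_update)

variable {g : ℕ} {Z : Matrix (Fin g) (Fin g) ℂ}

theorem sgb_t : ((sgb true : ℤ) : ℂ) = 1 := by simp [sgb]

theorem sgb_f : ((sgb false : ℤ) : ℂ) = -1 := by simp [sgb]

section basic

variable (K : UZ Z)

theorem mu_ne : K.μ ≠ 0 := by
  intro h
  have h1 := K.hμ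
  rw [h, mul_zero] at h1
  have h2 : (K.d : ℂ) = 0 := by
    rw [← neg_eq_zero, ← h1]
  have h3 : K.d = 0 := by exact_mod_cast h2
  exact K.hd.ne_zero h3

theorem skewC : (cK ℂ K.φ)ᵀ * Om g ℂ + Om g ℂ * cK ℂ K.φ = 0 := by
  have h1 := congrArg (cK ℂ) K.skew
  have h2 : ∀ A : Matrix (Fin g ⊕ Fin g) (Fin g ⊕ Fin g) ℚ, cK ℂ (-A) = -cK ℂ A := by
    intro A
    ext i j
    simp [cK]
  have h3 : cK ℂ (Om g ℚ) = Om g ℂ := Om_map ℂ
  rw [h2, cK_mul, cK_mul, h3, cK_transpose] at h1
  rw [h1, neg_add_cancel]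

/-- Eigenvectors for the same eigenvalue are orthogonal. -/
theorem iso {x y : Fin g ⊕ Fin g → ℂ} {c : ℂ} (hc : c ≠ 0) (hx : cK ℂ K.φ *ᵥ x = c • x)
    (hy : cK ℂ K.φ *ᵥ y = c • y) : om x y = 0 := by
  have h1 := om_sp (skewC K) x y
  rw [hx, hy, om_smul_left, om_smul_right] at h1
  have h2 : (2 * c) * om x y = 0 := by linear_combination h1
  exact (mul_eq_zero.1 h2).resolve_left (mul_ne_zero two_ne_zero hc)

theorem uu (k l : Fin g) : om (K.u k) (K.u l) = 0 := iso K (mu_ne K) (K.hu k) (K.hu l)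

theorem vv (k l : Fin g) : om (K.v k) (K.v l) = 0 :=
  iso K (neg_ne_zero.2 (mu_ne K)) (K.hv k) (K.hv l)

theorem uv (k l : Fin g) : om (K.u k) (K.v l) = if k = l then 1 else 0 := K.dual k l

theorem cm_true (y : Fin g ⊕ Fin g → ℂ) (c : Fin g) : (K.cm true *ᵥ y) c = om y (K.v c) := by
  change ∑ s, ((Pi.single s 1 : Fin g ⊕ Fin g → ℂ) ⬝ᵥ (Om g ℂ *ᵥ K.v c)) * y s =
    ∑ s, y s * (Om g ℂ *ᵥ K.v c) s
  refine Finset.sum_congr rfl fun s _ => ?_
  rw [single_one_dotProduct, mul_comm]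

theorem cm_false (y : Fin g ⊕ Fin g → ℂ) (c : Fin g) : (K.cm false *ᵥ y) c = om (K.u c) y := by
  unfold om
  rw [dotProduct_mulVec]
  change ∑ s, (K.u c ⬝ᵥ (Om g ℂ *ᵥ (Pi.single s 1 : Fin g ⊕ Fin g → ℂ))) * y s =
    ∑ s, (K.u c ᵥ* Om g ℂ) s * y s
  refine Finset.sum_congr rfl fun s _ => ?_
  rw [dotProduct_mulVec, dotProduct_single_one]

theorem mul_col {A : Matrix (Fin g) (Fin g ⊕ Fin g) ℂ} {B : Matrix (Fin g ⊕ Fin g) (Fin g) ℂ}
    (c e : Fin g) : (A * B) c e = (A *ᵥ fun s => B s e) c := rfl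

theorem cm_bm (β : Bool) : K.cm β * K.bm β = 1 := by
  ext c e
  rw [mul_col, Matrix.one_apply]
  cases β
  · rw [cm_false]
    exact uv K c e
  · rw [cm_true]
    exact (uv K e c).trans (by simp only [eq_comm])

theorem cm_bm_not (β : Bool) : K.cm β * K.bm (!β) = 0 := by
  ext c e
  rw [mul_col, Matrix.zero_apply]
  cases β
  · rw [cm_false]
    exact uu K c e
  · rw [cm_true]
    exact vv K e c

theorem res : K.bm true * K.cm true + K.bm false * K.cm false = 1 := by
  rw [← Matrix.fromCols_mul_fromRows]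
  refine mul_eq_one_comm.1 ?_
  rw [Matrix.fromRows_mul_fromCols, cm_bm, cm_bm, show K.cm true * K.bm false = 0 from
    cm_bm_not K true, show K.cm false * K.bm true = 0 from cm_bm_not K false, Matrix.fromBlocks_one]

theorem cm_phi (β : Bool) : K.cm β * cK ℂ K.φ = ((sgb β : ℂ) * K.μ) • K.cm β := by
  have h1 : ∀ x z : Fin g ⊕ Fin g → ℂ, om (cK ℂ K.φ *ᵥ x) z = -om x (cK ℂ K.φ *ᵥ z) :=
    om_sp (skewC K)
  refine Matrix.ext_of_mulVec_single fun s => ?_
  obtain ⟨y, hy⟩ : ∃ y : Fin g ⊕ Fin g → ℂ, y = Pi.single s 1 := ⟨_, rfl⟩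
  rw [← hy, ← mulVec_mulVec, smul_mulVec]
  funext c
  cases β
  · rw [cm_false, Pi.smul_apply, cm_false, smul_eq_mul]
    have h2 := h1 (K.u c) y
    rw [K.hu, om_smul_left] at h2
    rw [sgb_f]
    linear_combination h2
  · rw [cm_true, Pi.smul_apply, cm_true, smul_eq_mul, h1, K.hv, om_smul_right, sgb_t]
    ring

theorem phi_bm (β : Bool) : cK ℂ K.φ * K.bm β = ((sgb β : ℂ) * K.μ) • K.bm β := by
  ext s c
  cases β
  · have h := congrFun (K.hv c) s
    change (cK ℂ K.φ *ᵥ K.v c) s = ((sgb false : ℤ) : ℂ) * K.μ * K.v c s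
    rw [h]
    simp [sgb]
  · have h := congrFun (K.hu c) s
    change (cK ℂ K.φ *ᵥ K.u c) s = ((sgb true : ℤ) : ℂ) * K.μ * K.u c s
    rw [h]
    simp [sgb]

theorem cm_D_vec (hZ : Zᵀ = Z) (β : Bool) (y : Fin g ⊕ Fin g → ℂ) (c : Fin g) :
    (K.cm β *ᵥ (DZ Z *ᵥ y)) c = ((sgb β : ℂ) * ((K.ep c : ℤ) : ℂ)) * (K.cm β *ᵥ y) c := by
  have h1 : ∀ x z : Fin g ⊕ Fin g → ℂ, om (DZ Z *ᵥ x) z = -om x (DZ Z *ᵥ z) :=
    om_sp (sp_C hZ _ (D_mem (DZ Z)))
  cases β
  · rw [cm_false, cm_false]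
    have h2 := h1 (K.u c) y
    rw [K.hDu, om_smul_left] at h2
    rw [sgb_f]
    linear_combination h2
  · rw [cm_true, cm_true, h1, K.hDv, om_smul_right, sgb_t]
    ring

theorem cm_D (hZ : Zᵀ = Z) (β : Bool) : K.cm β * DZ Z =
    Matrix.diagonal (fun c => (sgb β : ℂ) * ((K.ep c : ℤ) : ℂ)) * K.cm β := by
  refine Matrix.ext_of_mulVec_single fun s => ?_
  rw [← mulVec_mulVec, ← mulVec_mulVec]
  funext c
  rw [cm_D_vec K hZ, Matrix.mulVec_diagonal]

theorem sum_eq : K.sum = (K.pos : ℤ) - (K.neg : ℤ) := by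
  unfold UZ.sum UZ.pos UZ.neg
  rw [Finset.card_filter, Finset.card_filter]
  push_cast
  rw [← Finset.sum_sub_distrib]
  refine Finset.sum_congr rfl fun k _ => ?_
  rcases K.hep k with h | h <;> rw [h] <;> norm_num

theorem pos_add_neg : K.pos + K.neg = g := by
  unfold UZ.pos UZ.neg
  rw [Finset.card_filter, Finset.card_filter, ← Finset.sum_add_distrib]
  have h1 : ∀ k ∈ (Finset.univ : Finset (Fin g)), (if K.ep k = 1 then 1 else 0) +
      (if K.ep k = -1 then 1 else 0) = 1 := by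
    intro k _
    rcases K.hep k with h | h <;> rw [h] <;> norm_num
  rw [Finset.sum_congr rfl h1]
  simp

end basic

/-- JOB UZA. -/
theorem uza : S_uza := by
  intro g Z hZ hpos K
  refine ⟨cm_bm K, cm_bm_not K, ?_, cm_phi K, phi_bm K, cm_D K hZ, sum_eq K, pos_add_neg K⟩
  rw [Fintype.sum_bool]
  exact res K

section trz

variable (K : UZ Z)

theorem trace_P (hZ : Zᵀ = Z) (β : Bool) :
    trace (DZ Z * (K.bm β * K.cm β)) = ((sgb β * K.sum : ℤ) : ℂ) := by
  rw [Matrix.trace_mul_comm, Matrix.mul_assoc, Matrix.trace_mul_comm, cm_D K hZ,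
    Matrix.mul_assoc, cm_bm, Matrix.mul_one, Matrix.trace_diagonal, ← Finset.mul_sum]
  unfold UZ.sum
  push_cast
  rfl

/-- The eigenprojections are polynomials in the endomorphism. -/
theorem P_eq (β : Bool) : K.bm β * K.cm β =
    (1 / 2 : ℂ) • (1 + ((sgb β : ℂ) * K.μ⁻¹) • cK ℂ K.φ) := by
  have hμ := mu_ne K
  have h1 : cK ℂ K.φ = K.μ • (K.bm true * K.cm true) - K.μ • (K.bm false * K.cm false) := by
    calc cK ℂ K.φ = cK ℂ K.φ * (K.bm true * K.cm true + K.bm false * K.cm false) := by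
          rw [res K, Matrix.mul_one]
      _ = _ := by
          rw [Matrix.mul_add, ← Matrix.mul_assoc, ← Matrix.mul_assoc, phi_bm, phi_bm,
            Matrix.smul_mul, Matrix.smul_mul]
          simp [sgb, sub_eq_add_neg]
  have h2 := res K
  rw [← h2, h1, smul_sub, smul_smul, smul_smul, smul_add, smul_sub, smul_smul, smul_smul]
  have h3 : (sgb β : ℂ) * K.μ⁻¹ * K.μ = (sgb β : ℂ) := by
    field_simp
  rw [h3]
  cases β
  · rw [sgb_f]
    generalize K.bm true * K.cm true = A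
    generalize K.bm false * K.cm false = B
    ext i j
    simp only [Matrix.add_apply, Matrix.sub_apply, Matrix.smul_apply, smul_eq_mul]
    ring
  · rw [sgb_t]
    generalize K.bm true * K.cm true = A
    generalize K.bm false * K.cm false = B
    ext i j
    simp only [Matrix.add_apply, Matrix.sub_apply, Matrix.smul_apply, smul_eq_mul]
    ring

theorem cK_aut {m n : Type*} (M : Matrix m n ℚ) (σ : ℂ ≃+* ℂ) :
    (cK ℂ M).map (σ : ℂ →+* ℂ) = cK ℂ M := by
  ext i j
  simp [cK]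

theorem P_map (σ : ℂ ≃+* ℂ) (β β' : Bool) (h : (sgb β : ℂ) * (σ K.μ)⁻¹ = (sgb β' : ℂ) * K.μ⁻¹) :
    (K.bm β * K.cm β).map (σ : ℂ →+* ℂ) = K.bm β' * K.cm β' := by
  rw [P_eq K β, P_eq K β', ← h]
  ext i j
  have h1 : σ (cK ℂ K.φ i j) = cK ℂ K.φ i j :=
    congrFun (congrFun (cK_aut K.φ σ) i) j
  simp only [Matrix.map_apply, Matrix.smul_apply, Matrix.add_apply, smul_eq_mul, map_mul, map_add,
    h1, RingEquiv.coe_toRingHom, map_inv₀, map_intCast, map_div₀, map_one, map_ofNat]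
  by_cases h2 : i = j
  · rw [h2, Matrix.one_apply_eq, map_one]
  · rw [Matrix.one_apply_ne h2, map_zero]

theorem trace_map {n : Type*} [Fintype n] (σ : ℂ ≃+* ℂ) (M : Matrix n n ℂ) :
    (M.map (σ : ℂ →+* ℂ)).trace = σ M.trace := by
  simp [Matrix.trace, map_sum]

end trz

/-- JOB TRZ. -/
theorem trz : S_trz := by
  intro g Z hZ hpos K β σ
  have hμ := mu_ne K
  have key : ∀ β' : Bool, (sgb β' : ℂ) * (σ K.μ)⁻¹ = (sgb β : ℂ) * K.μ⁻¹ →
      trace ((DZ Z).map (σ : ℂ →+* ℂ) * (K.bm β * K.cm β)) = ((sgb β' * K.sum : ℤ) : ℂ) := by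
    intro β' h
    rw [← P_map K σ β' β h, ← Matrix.map_mul, trace_map, trace_P K hZ]
    exact map_intCast σ _
  by_cases hs : σ K.μ = K.μ
  · have h1 : chi K.μ σ = 1 := by
      unfold chi
      rw [if_pos hs]
    rw [h1, mul_one]
    exact key β (by rw [hs])
  · have h1 : chi K.μ σ = -1 := by
      unfold chi
      rw [if_neg hs]
    have h2 : σ K.μ = -K.μ := by
      have h3 : σ K.μ * σ K.μ = K.μ * K.μ := by
        rw [← map_mul, K.hμ]
        simp
      rcases mul_self_eq_mul_self_iff.1 h3 with h4 | h4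
      · exact absurd h4 hs
      · exact h4
    rw [h1]
    have h5 : sgb (!β) = -sgb β := by
      cases β <;> simp [sgb]
    rw [key (!β) (by rw [h2, h5, inv_neg]; push_cast; ring), h5]
    congr 1
    ring

section kon

/-- The matrix of coordinates. -/
noncomputable def mC (K : UZ Z) (β : Bool) (x : Fin g → Fin g ⊕ Fin g → ℂ) :
    Matrix (Fin g) (Fin g) ℂ := Matrix.of fun a b => (K.cm β *ᵥ x a) b

theorem mC_update (K : UZ Z) (β : Bool) (x : Fin g → Fin g ⊕ Fin g → ℂ) (k : Fin g)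
    (y : Fin g ⊕ Fin g → ℂ) :
    mC K β (Function.update x k y) = (mC K β x).updateRow k fun b => (K.cm β *ᵥ y) b := by
  ext a b
  rw [Matrix.updateRow_apply]
  unfold mC
  rw [Matrix.of_apply, Matrix.of_apply]
  by_cases h : a = k
  · subst h
    rw [Function.update_self, if_pos rfl]
  · rw [Function.update_of_ne h, if_neg h]

/-- The determinant form on the rational vectors. -/
noncomputable def dQ (K : UZ Z) (β : Bool) : (Fin g ⊕ Fin g → ℚ) [⋀^Fin g]→ₗ[ℚ] ℂ where
  toFun x := (mC K β fun a => cq (x a)).det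
  map_update_add' := by
    intro inst x k y z
    have h : inst = instDecidableEqFin g := Subsingleton.elim _ _
    subst h
    rw [cq_update, cq_update, cq_update, mC_update, mC_update, mC_update, cq_add,
      ← Matrix.det_updateRow_add]
    congr 2
    rw [mulVec_add]
  map_update_smul' := by
    intro inst x k c y
    have h : inst = instDecidableEqFin g := Subsingleton.elim _ _
    subst h
    rw [cq_update, cq_update, mC_update, mC_update, cq_smul, Rat.smul_def,
      ← Matrix.det_updateRow_smul]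
    congr 2
    rw [mulVec_smul]
  map_eq_zero_of_eq' := by
    intro x i j hij hne
    refine Matrix.det_zero_of_row_eq hne ?_
    funext b
    change (K.cm β *ᵥ cq (x i)) b = (K.cm β *ᵥ cq (x j)) b
    rw [hij]

theorem dQ_apply (K : UZ Z) (β : Bool) (x : Fin g → Fin g ⊕ Fin g → ℚ) :
    dQ K β x = (mC K β fun a => cq (x a)).det := rfl

/-- The eigenvalue. -/
theorem dQ_eig (K : UZ Z) (β : Bool) (x : Fin g → Fin g ⊕ Fin g → ℚ) (k : Fin g) :
    dQ K β (Function.update x k (K.φ *ᵥ x k)) = ((sgb β : ℂ) * K.μ) * dQ K β x := by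
  rw [dQ_apply, dQ_apply, cq_update, mC_update]
  have h1 : (fun b => (K.cm β *ᵥ cq (K.φ *ᵥ x k)) b) =
      ((sgb β : ℂ) * K.μ) • (mC K β fun a => cq (x a)) k := by
    have h2 : cq (K.φ *ᵥ x k) = cK ℂ K.φ *ᵥ cq (x k) :=
      Pool.Agent.Q60.D3.cast_mulVec K.φ (x k)
    rw [h2, mulVec_mulVec, cm_phi, smul_mulVec]
    rfl
  rw [h1, Matrix.det_updateRow_smul, Matrix.updateRow_eq_self]

/-- The weight. -/
theorem dQ_act (K : UZ Z) (hZ : Zᵀ = Z) (β : Bool) :
    act (DZ Z) (fun I : Fin g → Fin g ⊕ Fin g => (dQ K β).toMultilinearMap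
      fun k => Pi.single (I k) 1) = ((sgb β * K.sum : ℤ) : ℂ) •
      (fun I : Fin g → Fin g ⊕ Fin g => (dQ K β).toMultilinearMap fun k => Pi.single (I k) 1) := by
  funext I
  obtain ⟨x, hx⟩ : ∃ x : Fin g → Fin g ⊕ Fin g → ℂ, x = fun a => Pi.single (I a) 1 := ⟨_, rfl⟩
  have h0 : ∀ J : Fin g → Fin g ⊕ Fin g, (dQ K β).toMultilinearMap (fun k => Pi.single (J k) 1) =
      (mC K β fun a => Pi.single (J a) 1).det := by
    intro J
    change (mC K β fun a => cq (Pi.single (J a) 1)).det = _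
    simp only [cq_single]
  have h1 : ∀ k : Fin g, ∑ j, DZ Z j (I k) * (dQ K β).toMultilinearMap
      (fun a => Pi.single (Function.update I k j a) 1) =
      (mC K β (Function.update x k (DZ Z *ᵥ x k))).det := by
    intro k
    have h2 : ∀ j, (fun a => (Pi.single (Function.update I k j a) 1 : Fin g ⊕ Fin g → ℂ)) =
        Function.update x k (Pi.single j 1) := by
      intro j
      funext a
      by_cases h : a = k
      · subst h
        rw [Function.update_self, Function.update_self]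
      · rw [Function.update_of_ne h, Function.update_of_ne h, hx]
    have h3 : ∀ y : Fin g ⊕ Fin g → ℂ, (mC K β (Function.update x k y)).det =
        ∑ b, (mC K β x).updateRow k (fun b => (K.cm β *ᵥ y) b) k b *
          (mC K β x).adjugate b k := by
      intro y
      rw [mC_update, Matrix.det_eq_sum_mul_adjugate_row _ k]
      refine Finset.sum_congr rfl fun b _ => ?_
      congr 1
      rw [Matrix.adjugate_apply, Matrix.adjugate_apply]
      congr 1
      ext a c
      by_cases h : a = k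
      · subst h
        simp
      · simp [Matrix.updateRow_apply, h]
    have h4 : ∀ y : Fin g ⊕ Fin g → ℂ, (mC K β (Function.update x k y)).det =
        ∑ b, (K.cm β *ᵥ y) b * (mC K β x).adjugate b k := by
      intro y
      rw [h3]
      refine Finset.sum_congr rfl fun b _ => ?_
      rw [Matrix.updateRow_self]
    have h5 : DZ Z *ᵥ x k = ∑ j, DZ Z j (I k) • (Pi.single j 1 : Fin g ⊕ Fin g → ℂ) := by
      rw [hx]
      funext i
      rw [Finset.sum_apply, Finset.sum_eq_single i]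
      · simp
      · intro b _ hb
        rw [Pi.smul_apply, Pi.single_eq_of_ne (Ne.symm hb), smul_zero]
      · intro h
        exact absurd (Finset.mem_univ _) h
    rw [h4, h5]
    simp only [h0, h2, h4, mulVec_sum, mulVec_smul, Finset.sum_apply, Pi.smul_apply, smul_eq_mul,
      Finset.mul_sum, Finset.sum_mul]
    rw [Finset.sum_comm]
    refine Finset.sum_congr rfl fun b _ => Finset.sum_congr rfl fun j _ => ?_
    ring
  have h6 : ∀ k : Fin g, (mC K β (Function.update x k (DZ Z *ᵥ x k))).det =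
      ((sgb β : ℤ) : ℂ) * ((mC K β x).updateRow k fun b =>
        ((K.ep b : ℤ) : ℂ) * mC K β x k b).det := by
    intro k
    rw [mC_update, ← Matrix.det_updateRow_smul]
    congr 2
    funext b
    rw [cm_D_vec K hZ, Pi.smul_apply, smul_eq_mul, mul_assoc]
    rfl
  change ∑ k, ∑ j, DZ Z j (I k) * (dQ K β).toMultilinearMap
      (fun a => Pi.single (Function.update I k j a) 1) = _
  simp only [h1, h6]
  rw [← Finset.mul_sum, sum_det_diag, Pi.smul_apply, h0, smul_eq_mul, hx, ← mul_assoc]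
  congr 1
  unfold UZ.sum
  push_cast
  rfl

end kon

/-- JOB KON. -/
theorem kon : S_kon := by
  intro g Z hZ hpos K β
  refine ⟨{ dimA := ?_
            φ := Matrix.mulVecLin K.φ
            hφ := hom_of_comm hZ hpos hZ hpos K.com
            d := K.d
            hd := K.hd
            sq := ?_
            δ := dQ K β
            μ := (sgb β : ℂ) * K.μ
            hμ := ?_
            eig := fun v k => dQ_eig K β v k
            s := sgb β * K.sum
            hs := ?_
            wt := Pool.Agent.Q280.D3.wgt g Z hpos (Fin g) _ _ (dQ_act K hZ β) },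
          rfl, rfl, rfl, fun x => rfl⟩
  · change Module.finrank ℂ (Fin g → ℂ) = g
    rw [Module.finrank_fintype_fun_eq_card, Fintype.card_fin]
  · have key : ∀ w : Fin g ⊕ Fin g → ℚ, K.φ *ᵥ (K.φ *ᵥ w) = -((K.d : ℚ) • w) := by
      intro w
      rw [mulVec_mulVec, K.sq, neg_mulVec, smul_mulVec, one_mulVec]
    exact key
  · have h1 : ((sgb β : ℤ) : ℂ) * ((sgb β : ℤ) : ℂ) = 1 := by
      cases β <;> simp [sgb]
    calc ((sgb β : ℤ) : ℂ) * K.μ * (((sgb β : ℤ) : ℂ) * K.μ) =
        (((sgb β : ℤ) : ℂ) * ((sgb β : ℤ) : ℂ)) * (K.μ * K.μ) := by ring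
      _ = _ := by rw [h1, one_mul, K.hμ]
  · intro h
    subst h
    have h1 : K.sum = K.ep 0 := by
      unfold UZ.sum
      simp
    rw [h1]
    cases β <;> rcases K.hep 0 with h2 | h2 <;> simp [sgb, h2]

end Pool.Agent.Q202.WT
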